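import Mathlib
import Pool.Agent.H.MP_c5dce0_nt.A

set_option autoImplicit false

namespace Pool.Agent.Results.MP_c5dce0_nt.Val

open PowerSeries Finset

noncomputable def geo (m : ℕ) : ℤ⟦X⟧ := PowerSeries.mk fun j => if m ∣ j then 1 else 0

noncomputable def S (t n : ℕ) : ℤ :=
  coeff n (geo 1 ^ t * ∏ i ∈ range (n + 1), geo (4 ^ i) ^ (3 * t))

theorem result (s n : ℕ) (hs : 2 ≤ s) (hn : 1 ≤ n) :
    emultiplicity 2 (S (2 ^ s) n) = ((s + 1 + padicValNat 2 (2 * n) % 2 : ℕ) : ℕ∞) := by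
  obtain ⟨s, rfl⟩ := Nat.exists_eq_add_of_le' hs
  have := Pool.Agent.H.MP_c5dce0_nt.main s 1 n odd_one hn
  rw [mul_one] at this
  exact this

end Pool.Agent.Results.MP_c5dce0_nt.Val
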